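import Mathlib
import Pool.Agent.T4h65.Fam

/-!
# Integer-edged tetrahedra: polynomial families of volumes

Is every positive multiple `3 m` of `3` the volume of a tetrahedron with integer edges? Dove and Sumner give examples for finitely
many `m`. We show that this is true for infinitely many arithmetic progressions of `m`, for more than two fifteenths of all `m`,
by tetrahedra with a fixed base and three further edges which are quadratic polynomials in `m`: for example the tetrahedron with the
base `8, 12, 16` and the further edges `2 k² + 12`, `2 k² + 8`, `2 k² + 5` has the volume `60 k`, and the tetrahedron with the base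
`15, 15, 24` and the further edges `k² + 13`, `k² + 13`, `k² + 4` has the volume `144 k`.

Theorem. Let `m` be a positive integer which is a multiple of `20`, of `48` or of `84`, or congruent to `± 4` modulo `40`, to `± 32`
modulo `80`, to `± 168` modulo `560` or to `308` modulo `616`, and let `k` be a positive integer. Then `3 k³ m` is the volume of a
tetrahedron all of whose edges are positive integers.

Idea. Let `A` be a point at the distances `x`, `x + u`, `x + v` from the vertices of a triangle with the sides `p, q, r`. The square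
of the volume is a quadratic polynomial in `x`; it is linear if the triangle has coordinates `(0, 0)`, `(u, n₁ √N)`, `(v, n₂ √N)`
(then the direction from `A` to the triangle tends to a direction in the plane of the triangle, for `x → ∞`). The volume is `3 m` if
`4 N² δ P x = (36 m)² + N² W² + N³ P²` with `δ = u n₂ - v n₁`, `P = n₁ n₂ (n₁ - n₂)`, `W = u n₂² - v n₁²`.
-/

set_option autoImplicit false

namespace Pool.Agent.Results.MP_bed894_nt.PolynomialFamilies

open Pool.Agent.T4h65.Tet (IsVolume)
open Pool.Agent.T4h65.Tet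

/-- **More than two fifteenths of the multiples of three are volumes of tetrahedra with integer edges**, the multiples of `60`, of
`144` and of `252` among them. -/
theorem result (m k : ℕ) (hm : 0 < m) (hk : 0 < k)
    (h : m % 20 = 0 ∨ m % 48 = 0 ∨ m % 84 = 0 ∨ (m % 40 = 4 ∨ m % 40 = 36) ∨ (m % 80 = 32 ∨ m % 80 = 48) ∨
      (m % 560 = 168 ∨ m % 560 = 392) ∨ m % 616 = 308) :
    IsVolume (3 * k ^ 3 * m) := by
  have key : IsVolume (3 * (m : ℝ)) := by
    have h20 : ∀ n : ℕ, 0 < n → n % 20 = 0 → IsVolume (3 * (n : ℝ)) := by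
      intro n hn h0
      obtain ⟨j, rfl⟩ : ∃ j, n = 20 * j := ⟨n / 20, by omega⟩
      exact f20_0_15 j (by omega)
    rcases h with h | h | h | h | h | h | h
    · exact h20 m hm h
    · obtain ⟨j, rfl⟩ : ∃ j, m = 48 * j := ⟨m / 48, by omega⟩
      exact f48_0_1 j (by omega)
    · have h5 : m % 20 = 0 ∨ m % 420 = 84 ∨ m % 420 = 168 ∨ m % 420 = 252 ∨ m % 420 = 336 := by omega
      rcases h5 with h5 | h5 | h5 | h5 | h5
      · exact h20 m hm h5
      · obtain ⟨j, rfl⟩ : ∃ j, m = 420 * j + 84 := ⟨m / 420, by omega⟩
        exact f420_84_7 j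
      · obtain ⟨j, rfl⟩ : ∃ j, m = 420 * j + 168 := ⟨m / 420, by omega⟩
        exact f420_168_7 j
      · obtain ⟨j, rfl⟩ : ∃ j, m = 420 * j + 252 := ⟨m / 420, by omega⟩
        exact f420_252_7 j
      · obtain ⟨j, rfl⟩ : ∃ j, m = 420 * j + 336 := ⟨m / 420, by omega⟩
        exact f420_336_7 j
    · rcases h with h | h
      · obtain ⟨j, rfl⟩ : ∃ j, m = 40 * j + 4 := ⟨m / 40, by omega⟩
        exact f40_4_3 j
      · obtain ⟨j, rfl⟩ : ∃ j, m = 40 * j + 36 := ⟨m / 40, by omega⟩
        exact f40_36_3 j
    · rcases h with h | h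
      · obtain ⟨j, rfl⟩ : ∃ j, m = 80 * j + 32 := ⟨m / 80, by omega⟩
        exact f80_32_3 j
      · obtain ⟨j, rfl⟩ : ∃ j, m = 80 * j + 48 := ⟨m / 80, by omega⟩
        exact f80_48_3 j
    · rcases h with h | h
      · obtain ⟨j, rfl⟩ : ∃ j, m = 560 * j + 168 := ⟨m / 560, by omega⟩
        exact f560_168_7 j
      · obtain ⟨j, rfl⟩ : ∃ j, m = 560 * j + 392 := ⟨m / 560, by omega⟩
        exact f560_392_7 j
    · obtain ⟨j, rfl⟩ : ∃ j, m = 616 * j + 308 := ⟨m / 616, by omega⟩
      exact f616_308_231 j
  have h3 := key.scale (by positivity) hk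
  have e : (3 * (k : ℝ) ^ 3 * m) = (k : ℝ) ^ 3 * (3 * m) := by ring
  rw [e]
  exact h3

end Pool.Agent.Results.MP_bed894_nt.PolynomialFamilies
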